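import Mathlib
import Pool.Agent.Q209.GC.Fin

/-!
# MP_fb29e9_nt: the error term of the circle problem along Beatty sequences

`E x = (#{p ∈ ℤ² : |p|² ≤ x} - π x) / x^{1/4}` is the normalised error term at the radius `√x`.
Let `P_i(n) = a_i n² + b_i n + c_i`, `i < k`, with positive integers `a_i`, and let `Fr a` be the additive group
generated by `1` and the numbers `√(a_i (u² + v²))`.  The vectors `e_n = (E(P_i(n)))_i` have a limit law `μ`.
For every irrational `α > 1` and every `β ≥ 0` the vectors along the Beatty sequence `n = ⌊α m + β⌋` have a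
limit law `ν_β` as well, and the following criteria decide whether it is `μ`.

* If no multiple `h / α`, `h ≥ 1`, lies in `Fr a`, then `ν_β = μ` for all `β ≥ 0`.
* If some `h / α` lies in the group generated by `1` and the numbers `√(a_i (u² + v²))` for one `i`, then for
  some `0 ≤ β < α` even the `i`-th marginals of `ν_β` and `μ` differ.  For `k = 1` this is the converse.
* If `α` is not in the field generated by the square roots of the natural numbers then `ν_β = μ` for all `β`.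
* If `α` is a quadratic irrational of `ℚ(√d)`, `d` squarefree, then `ν_β = μ` for all `β ≥ 0` if and only if
  none of the numbers `a_i d` is a sum of two squares.  (For integer radii `n`: if and only if `d` is not a
  sum of two squares.)
-/

set_option autoImplicit false

open Filter Topology MeasureTheory

namespace Pool.Agent.Results.MP_fb29e9_nt.BeattyRadii

/-- the normalised error term of the circle problem at the radius `√x` -/
noncomputable def E (x : ℝ) : ℝ :=
  ((Nat.card {p : ℤ × ℤ // (p.1 : ℝ) ^ 2 + (p.2 : ℝ) ^ 2 ≤ x} : ℝ) - Real.pi * x) / x ^ (1/4 : ℝ)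

/-- the group generated by `1` and the numbers `√(a_i (u² + v²))` -/
def Fr {k : ℕ} (a : Fin k → ℕ) : AddSubgroup ℝ :=
  AddSubgroup.closure ({1} ∪ {θ | ∃ i : Fin k, ∃ u v : ℕ, 0 < u ^ 2 + v ^ 2 ∧
    θ = √((a i * (u ^ 2 + v ^ 2) : ℕ) : ℝ)})

/-- the field generated by the square roots of the natural numbers -/
noncomputable def SqrtField : Subfield ℝ := Subfield.closure (Set.range fun n : ℕ => √(n:ℝ))

/-- The error term of the circle problem at the radii `√P_i(n)`, `n = ⌊α m + β⌋`: existence of the limit laws, and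
the criteria for their independence of the rotation. -/
theorem result {k : ℕ} (a : Fin k → ℕ) (b c : Fin k → ℝ) (ha : ∀ i, 0 < a i)
    (hP : ∀ i, ∀ n : ℕ, 1 ≤ n → 0 < (a i:ℝ) * (n:ℝ)^2 + b i * n + c i) :
    ∃ μ : ProbabilityMeasure (Fin k → ℝ),
      Integrable (fun x : Fin k → ℝ => ∑ i, x i ^ 2) (μ : Measure (Fin k → ℝ)) ∧
      -- the limit law along all `n`
      (∀ f : (Fin k → ℝ) → ℝ, Continuous f → (∃ C : ℝ, ∀ x, |f x| ≤ C * (1 + ∑ i, x i ^ 2)) →
          Tendsto (fun N : ℕ => (∑ n ∈ Finset.Icc 1 N,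
            f (fun i => E ((a i:ℝ) * (n:ℝ)^2 + b i * n + c i))) / N)
            atTop (𝓝 (∫ x, f x ∂(μ : Measure (Fin k → ℝ))))) ∧
      -- the limit laws along Beatty sequences
      (∀ α : ℝ, 1 < α → Irrational α → ∃ ν : ℝ → ProbabilityMeasure (Fin k → ℝ),
        (∀ β : ℝ, 0 ≤ β → Integrable (fun x : Fin k → ℝ => ∑ i, x i ^ 2) (ν β : Measure (Fin k → ℝ)) ∧
          ∀ f : (Fin k → ℝ) → ℝ, Continuous f → (∃ C : ℝ, ∀ x, |f x| ≤ C * (1 + ∑ i, x i ^ 2)) →
            Tendsto (fun M : ℕ => (∑ m ∈ Finset.Icc 1 M,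
              f (fun i => E ((a i:ℝ) * ((⌊α * m + β⌋₊ : ℕ) : ℝ)^2 + b i * (⌊α * m + β⌋₊ : ℕ) + c i))) / M)
              atTop (𝓝 (∫ x, f x ∂(ν β : Measure (Fin k → ℝ))))) ∧
        ((∀ h : ℕ, 0 < h → (h : ℝ) / α ∉ Fr a) → ∀ β : ℝ, 0 ≤ β → ν β = μ) ∧
        (∀ i, (∃ h : ℕ, 0 < h ∧ (h : ℝ) / α ∈ Fr (fun _ : Fin 1 => a i)) → ∃ β : ℝ, 0 ≤ β ∧ β < α ∧
          (ν β : Measure (Fin k → ℝ)).map (fun x => x i) ≠ (μ : Measure (Fin k → ℝ)).map (fun x => x i)) ∧
        (α ∉ SqrtField → ∀ β : ℝ, 0 ≤ β → ν β = μ) ∧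
        (∀ (d : ℕ) (x y : ℚ), Squarefree d → α = x + y * √(d:ℝ) →
          ((∀ β : ℝ, 0 ≤ β → ν β = μ) ↔ ∀ i, ¬ ∃ u v : ℕ, a i * d = u ^ 2 + v ^ 2))) :=
  Pool.Agent.Q209.GC.main a b c ha hP

end Pool.Agent.Results.MP_fb29e9_nt.BeattyRadii
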