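import Pool.Agent.Q212.GC.D
import Pool.Agent.Q212.GC.C3

/-!
# The error term of the Gauss circle problem in every window of radii
-/

namespace Pool.Agent.Results.MP_fb29e9_nt.MeanSquareEveryWindow

open MeasureTheory

/-- the error term of the Gauss circle problem at the radius `r` -/
noncomputable def P (r : ℝ) : ℝ :=
  (Nat.card {p : ℤ × ℤ // (p.1 : ℝ) ^ 2 + (p.2 : ℝ) ^ 2 ≤ r ^ 2} : ℝ) - Real.pi * r ^ 2

/-- the number of integer pairs with `x² + y² = n` -/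
noncomputable def rep (n : ℕ) : ℝ := (Nat.card {p : ℤ × ℤ // p.1 ^ 2 + p.2 ^ 2 = (n : ℤ)} : ℝ)

theorem result :
    (Summable fun n : ℕ => rep n ^ 2 * (n:ℝ) ^ (-(3/2) : ℝ)) ∧
    (∀ c : ℝ, c < 1 / (2 * Real.pi ^ 2) * ∑' n : ℕ, rep n ^ 2 * (n:ℝ) ^ (-(3/2) : ℝ) →
      ∃ T₁ : ℝ, ∀ U T : ℝ, 1 ≤ U → T₁ ≤ T → c * T ≤ ∫ r in U..(U + T), P r ^ 2 / r) ∧
    (∀ c : ℝ, c < 1 / Real.pi → ∃ T₁ : ℝ, ∀ U T : ℝ, 1 ≤ U → T₁ ≤ T →
      c * T ≤ (∫ r in U..(U + T), max (P r / √r) 0) ∧ c * T ≤ ∫ r in U..(U + T), max (-(P r / √r)) 0) ∧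
    (∀ n : ℕ, 1 ≤ n → ∃ C : ℝ, ∀ U T ψ : ℝ, 4 ≤ U → 0 < T → T ≤ U →
      |(∫ r in U..(U + T), P r / √r * Real.cos (2 * Real.pi * √(n:ℝ) * r - ψ)) -
        T / 2 * (rep n / Real.pi * (n:ℝ) ^ (-(3/4) : ℝ) * Real.cos (3 * Real.pi / 4 - ψ))| ≤
        C * (1 + U ^ (-(1/100) : ℝ) * T)) ∧
    (∀ lam : ℝ, 0 ≤ lam → (∀ n : ℕ, 1 ≤ n → lam ≠ √(n:ℝ)) → ∃ C : ℝ, ∀ U T ψ : ℝ, 4 ≤ U → 0 < T → T ≤ U →
      |∫ r in U..(U + T), P r / √r * Real.cos (2 * Real.pi * lam * r - ψ)| ≤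
        C * (1 + U ^ (-(1/100) : ℝ) * T)) := by
  obtain ⟨C0, hC0, hS⟩ := Pool.Agent.H383.Circ.En_Sand
  refine ⟨Pool.Agent.Q212.GC.rr_summable, fun c hc => ?_, fun c hc => ?_, fun n hn => ?_, fun lam hlam hne => ?_⟩
  · have hc' : c < (∑' n : ℕ, (Pool.Agent.H383.Circ.ag n) ^ 2) / 2 := by
      rw [Pool.Agent.Q212.GC.const_eq]; exact hc
    obtain ⟨T₁, h⟩ := Pool.Agent.Q212.GC.ms_window Pool.Agent.H383.Circ.ag_Bd Pool.Agent.H383.Circ.ag_zero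
      Pool.Agent.H383.Circ.wg_Wt hC0 hS Pool.Agent.Q212.GC.En_ii Pool.Agent.Q212.GC.En2_ii
      Pool.Agent.Q212.GC.ag_sq_summable c hc'
    refine ⟨max T₁ 0, fun U T hU hT => (h U T hU ((le_max_left _ _).trans hT)).trans (le_of_eq ?_)⟩
    refine intervalIntegral.integral_congr fun r hr => ?_
    have hT0 : 0 ≤ T := (le_max_right _ _).trans hT
    rw [Set.uIcc_of_le (by linarith)] at hr
    exact Pool.Agent.Q212.GC.En_sq (by linarith [hr.1])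
  · exact Pool.Agent.Q212.GC.sign_parts Pool.Agent.H383.Circ.ag_Bd Pool.Agent.H383.Circ.ag_zero
      Pool.Agent.H383.Circ.wg_Wt hC0 hS Pool.Agent.Q212.GC.En_ii le_rfl c (by
        rw [Pool.Agent.Q212.GC.ag_one]; exact hc)
  · obtain ⟨K, -, h⟩ := Pool.Agent.Q212.GC.coeff Pool.Agent.H383.Circ.ag_Bd Pool.Agent.H383.Circ.ag_zero
      Pool.Agent.H383.Circ.wg_Wt hC0 hS Pool.Agent.Q212.GC.En_ii hn
    refine ⟨K, fun U T ψ hU hT hTU => ?_⟩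
    have h1 := h U hU T hT hTU ψ
    rw [Pool.Agent.Q212.GC.ag_val] at h1
    exact h1
  · obtain ⟨K, -, h⟩ := Pool.Agent.Q212.GC.coeff_gen Pool.Agent.H383.Circ.ag_Bd Pool.Agent.H383.Circ.ag_zero
      Pool.Agent.H383.Circ.wg_Wt hC0 hS Pool.Agent.Q212.GC.En_ii hlam hne
    exact ⟨K, fun U T ψ hU hT hTU => h U hU T hT hTU ψ⟩

end Pool.Agent.Results.MP_fb29e9_nt.MeanSquareEveryWindow
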