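import Mathlib
import Pool.Agent.Q263.PS.Circ

/-!
# The Gauss circle problem: cancellation, with a power saving, over primes and against the Möbius function

`P(R)` is the number of integer points in the closed disc of radius `R` minus `π R²`.  For every real
`κ > 0` the error term at the radii `√(κ n)` is orthogonal, with a power saving, to the Möbius function
and to the primes, uniformly in all additive characters `e(α n)` and all residue classes.

Outline: smoothed Voronoi formula (sandwich from above and below), bounds for the sums of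
`μ(n) e(α n + θ √n)` and `Λ(n) e(α n + θ √n)` on dyadic blocks, uniform in `α` (starting modules
`Pool.Agent.W24.CP`), then Abel summation; residue classes by additive characters; prime powers by a
pointwise bound of the error term.
-/

set_option autoImplicit false

open Finset

namespace Pool.Agent.Results.MP_fb29e9_nt.PrimesPowerSaving

theorem result (P : ℝ → ℝ)
    (hP : ∀ R : ℝ, P R =
      (Nat.card {p : ℤ × ℤ // (p.1 : ℝ) ^ 2 + (p.2 : ℝ) ^ 2 ≤ R ^ 2} : ℝ) - Real.pi * R ^ 2)
    (κ : ℝ) (hκ : 0 < κ) :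
    ∃ δ : ℝ, 0 < δ ∧ ∃ C : ℝ, ∀ N : ℕ, 1 ≤ N → ∀ (α : ℝ) (q b : ℕ), 1 ≤ q →
      ‖∑ n ∈ (Icc 1 N).filter (fun n => n ≡ b [MOD q]), ((ArithmeticFunction.moebius n : ℤ) : ℂ) *
        Complex.exp (2 * Real.pi * Complex.I * (α * n)) * ((P √(κ * n) : ℝ) : ℂ)‖
          ≤ C * (N : ℝ) ^ (5 / 4 - δ) ∧
      ‖∑ n ∈ (Icc 1 N).filter (fun n => n ≡ b [MOD q]), ((ArithmeticFunction.vonMangoldt n : ℝ) : ℂ) *
        Complex.exp (2 * Real.pi * Complex.I * (α * n)) * ((P √(κ * n) : ℝ) : ℂ)‖
          ≤ C * (N : ℝ) ^ (5 / 4 - δ) ∧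
      ‖∑ p ∈ ((Icc 1 N).filter Nat.Prime).filter (fun n => n ≡ b [MOD q]),
        Complex.exp (2 * Real.pi * Complex.I * (α * p)) * ((P √(κ * p) : ℝ) : ℂ)‖
          ≤ C * (N : ℝ) ^ (5 / 4 - δ) := by
  have key : ∀ n : ℕ, P √(κ * n) = Pool.Agent.Q263.PS.Pe (κ * n) := by
    intro n
    rw [hP, Real.sq_sqrt (by positivity)]
    rfl
  simp only [key]
  exact Pool.Agent.Q263.PS.circ_main hκ

end Pool.Agent.Results.MP_fb29e9_nt.PrimesPowerSaving
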