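import Mathlib
import Pool.Agent.Q263.PS.M2e

/-!
# The Gauss circle problem: second moments and correlations over the integers and over the primes, and
# against the Möbius function, with a power saving

Let `E(x) = (#{p ∈ ℤ² : |p|² ≤ x} - π x) / x^(1/4)` be the normalised error term.  For all linear forms
`a₁ n + b₁`, `a₂ n + b₂` with natural coefficients and every real `κ > 0` the product
`E(κ (a₁ n + b₁)) E(κ (a₂ n + b₂))` minus its mean value `D` is orthogonal, with a power saving, to the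
additive characters `e(α n)`, to `μ(n) e(α n)` and to `Λ(n) e(α n)`, uniformly in `α` and in all residue
classes; so it has sum `O(N^(1-δ))` over the primes `p ≤ N` of a residue class.

Outline: truncated Voronoi formula with `N^(1/1024)` terms, whose error is small in mean square over the
integers, hence over the values of a linear form; the product of two truncated sums is a short combination
of `cos(2π θ √n + ψ)` with `θ = √κ (√(a₁ m₁) ± √(a₂ m₂))`; the terms with `θ = 0` give `D`, and for the others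
`θ` is at least a small negative power of `N`, so that the starting bounds (modules `Pool.Agent.W24.CP`) for the
sums of `Λ(n) e(α n + θ √n)`, `μ(n) e(α n + θ √n)` and `e(α n + θ √n)` apply.
-/

set_option autoImplicit false

open Finset

namespace Pool.Agent.Results.MP_fb29e9_nt.SecondMomentsPowerSaving

theorem result (E : ℝ → ℝ)
    (hE : ∀ x : ℝ, E x =
      ((Nat.card {p : ℤ × ℤ // (p.1 : ℝ) ^ 2 + (p.2 : ℝ) ^ 2 ≤ x} : ℝ) - Real.pi * x) / x ^ (1 / 4 : ℝ))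
    (r : ℕ → ℕ) (hr : ∀ m : ℕ, r m = Nat.card {p : ℤ × ℤ // p.1 ^ 2 + p.2 ^ 2 = (m : ℤ)})
    (κ : ℝ) (hκ : 0 < κ) (a₁ a₂ b₁ b₂ u v : ℕ) (ha₁ : 0 < a₁) (ha₂ : 0 < a₂)
    (ha : a₁ * u = a₂ * v) (huv : Nat.Coprime u v) (D : ℝ)
    (hD : D = (∑' h : ℕ, (r (u * h) : ℝ) * r (v * h) / ((u : ℝ) * v * (h : ℝ) ^ 2) ^ (3 / 4 : ℝ))
      / (2 * Real.pi ^ 2)) :
    Summable (fun h : ℕ => (r (u * h) : ℝ) * r (v * h) / ((u : ℝ) * v * (h : ℝ) ^ 2) ^ (3 / 4 : ℝ)) ∧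
    ∃ δ : ℝ, 0 < δ ∧ ∃ C : ℝ, ∀ N : ℕ, 1 ≤ N → ∀ (α : ℝ) (q b : ℕ), 1 ≤ q →
      ‖∑ n ∈ (Icc 1 N).filter (fun n => n ≡ b [MOD q]), Complex.exp (2 * Real.pi * Complex.I * (α * n)) *
        ((E (κ * (a₁ * n + b₁)) * E (κ * (a₂ * n + b₂)) - D : ℝ) : ℂ)‖ ≤ C * (N : ℝ) ^ (1 - δ) ∧
      ‖∑ n ∈ (Icc 1 N).filter (fun n => n ≡ b [MOD q]), ((ArithmeticFunction.moebius n : ℤ) : ℂ) *
        Complex.exp (2 * Real.pi * Complex.I * (α * n)) *
        ((E (κ * (a₁ * n + b₁)) * E (κ * (a₂ * n + b₂)) - D : ℝ) : ℂ)‖ ≤ C * (N : ℝ) ^ (1 - δ) ∧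
      ‖∑ n ∈ (Icc 1 N).filter (fun n => n ≡ b [MOD q]), ((ArithmeticFunction.vonMangoldt n : ℝ) : ℂ) *
        Complex.exp (2 * Real.pi * Complex.I * (α * n)) *
        ((E (κ * (a₁ * n + b₁)) * E (κ * (a₂ * n + b₂)) - D : ℝ) : ℂ)‖ ≤ C * (N : ℝ) ^ (1 - δ) ∧
      ‖∑ p ∈ ((Icc 1 N).filter Nat.Prime).filter (fun n => n ≡ b [MOD q]),
        Complex.exp (2 * Real.pi * Complex.I * (α * p)) *
        ((E (κ * (a₁ * p + b₁)) * E (κ * (a₂ * p + b₂)) - D : ℝ) : ℂ)‖ ≤ C * (N : ℝ) ^ (1 - δ) := by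
  have hEc : E = Pool.Agent.H425R3.JL.Ec := funext hE
  subst hEc
  subst hD
  obtain ⟨h1, δ, hδ, C, h2⟩ := Pool.Agent.Q263.PS.circ_m2 r hr hκ a₁ a₂ b₁ b₂ u v ha₁ ha₂ ha huv
  refine ⟨h1, δ, hδ, C, ?_⟩
  intro N hN α q b hq
  exact h2 N hN α q b hq _ (fun _ => rfl)

end Pool.Agent.Results.MP_fb29e9_nt.SecondMomentsPowerSaving
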